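import Pool.Agent.H87.NF.RAYS

/-!
# NF, rows RAY and TWI: twisting elements congruent to one
-/

set_option autoImplicit false

namespace Pool.NF

open NumberField IsDedekindDomain Pool.T1

namespace Ray87

variable {R : Type} [CommRing R] [IsDedekindDomain R]

private theorem cop_max (P : HeightOneSpectrum R) {m : R} (hm : m ∉ P.asIdeal) :
    IsCoprime P.asIdeal (Ideal.span {m}) := by
  have hmax := P.isMaximal
  rw [Ideal.isCoprime_iff_sup_eq]
  have h1 : P.asIdeal < P.asIdeal ⊔ Ideal.span {m} := by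
    refine lt_of_le_of_ne le_sup_left fun h => hm ?_
    rw [h]
    exact Ideal.mem_sup_right (Ideal.mem_span_singleton_self m)
  exact hmax.1.2 _ h1

/-- The ray classes are finite in number. -/
theorem ray (m : R) [Finite (ClassGroup R)] [Finite (R ⧸ Ideal.span {m})] :
    ∃ B : Finset (HeightOneSpectrum R), Ray m B := by
  classical
  -- the class of a prime
  let Pn : HeightOneSpectrum R → nonZeroDivisors (Ideal R) := fun P =>
    ⟨P.asIdeal, mem_nonZeroDivisors_iff_ne_zero.2 P.ne_bot⟩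
  let cl : HeightOneSpectrum R → ClassGroup R := fun P => ClassGroup.mk0 (Pn P)
  have hQ : ∀ c : ClassGroup R, ∃ Q : Option (HeightOneSpectrum R),
      (∀ P : HeightOneSpectrum R, m ∉ P.asIdeal → cl P = c →
        ∃ Q' : HeightOneSpectrum R, Q = some Q' ∧ m ∉ Q'.asIdeal ∧ cl Q' = c) := by
    intro c
    by_cases h : ∃ Q' : HeightOneSpectrum R, m ∉ Q'.asIdeal ∧ cl Q' = c
    · obtain ⟨Q', h1, h2⟩ := h
      exact ⟨some Q', fun P _ _ => ⟨Q', rfl, h1, h2⟩⟩
    · exact ⟨none, fun P h1 h2 => absurd ⟨P, h1, h2⟩ h⟩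
  choose Q hQ using hQ
  let e : R ⧸ Ideal.span {m} → R := fun x => if Quotient.out x = 0 then 1 else Quotient.out x
  have he0 : ∀ x, e x ≠ 0 := by
    intro x
    simp only [e]
    split_ifs with h
    · exact one_ne_zero
    · exact h
  have heq : ∀ (x : R ⧸ Ideal.span {m}) (a : R), x * Ideal.Quotient.mk (Ideal.span {m}) a = 1 →
      a * e x - 1 ∈ Ideal.span {m} := by
    intro x a hx
    have hout : Ideal.Quotient.mk (Ideal.span {m}) (Quotient.out x) = x := Quotient.out_eq x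
    rw [← Ideal.Quotient.eq_zero_iff_mem, map_sub, map_mul, map_one]
    simp only [e]
    split_ifs with h
    · rw [h, map_zero] at hout
      rw [← hout, zero_mul] at hx
      rw [map_one, mul_one]
      have h1 : ∀ z : R ⧸ Ideal.span {m}, z = 0 := fun z => by
        rw [← mul_one z, ← hx, mul_zero]
      exact h1 _
    · rw [hout, mul_comm, hx, sub_self]
  have hfin1 : (⋃ c : ClassGroup R, {v : HeightOneSpectrum R | Q c = some v}).Finite := by
    refine Set.finite_iUnion fun c => ?_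
    rcases hq : Q c with _ | q
    · simp
    · refine (Set.finite_singleton q).subset fun v hv => ?_
      exact (Option.some.inj hv).symm
  have hfin2 : (⋃ x : R ⧸ Ideal.span {m},
      {v : HeightOneSpectrum R | v.asIdeal ∣ Ideal.span {e x}}).Finite := by
    refine Set.finite_iUnion fun x => ?_
    refine Ideal.finite_factors ?_
    intro h
    exact he0 x (Ideal.span_singleton_eq_bot.1 h)
  set B : Finset (HeightOneSpectrum R) :=
    (hfin1.toFinset ∪ hfin2.toFinset).filter (fun P => m ∉ P.asIdeal) with hB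
  have hB1 : ∀ v : HeightOneSpectrum R, m ∉ v.asIdeal → (∃ c, Q c = some v) → v ∈ B := by
    rintro v h1 ⟨c, hc⟩
    rw [hB, Finset.mem_filter, Finset.mem_union, Set.Finite.mem_toFinset, Set.mem_iUnion]
    exact ⟨Or.inl ⟨c, hc⟩, h1⟩
  have hB2 : ∀ v : HeightOneSpectrum R, m ∉ v.asIdeal → (∃ x, e x ∈ v.asIdeal) → v ∈ B := by
    rintro v h1 ⟨x, hx⟩
    rw [hB, Finset.mem_filter, Finset.mem_union, Set.Finite.mem_toFinset (hs := hfin2),
      Set.mem_iUnion]
    exact ⟨Or.inr ⟨x, Ideal.dvd_span_singleton.2 hx⟩, h1⟩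
  refine ⟨B, fun P hP => (Finset.mem_filter.1 hP).2, fun P hmP hPB => ?_⟩
  obtain ⟨q, hq1, hq2, hq3⟩ := hQ (cl P) P hmP rfl
  have hqB : q ∈ B := hB1 q hq2 ⟨_, hq1⟩
  have hqP : q ≠ P := fun h => hPB (h ▸ hqB)
  obtain ⟨k, hk1⟩ : ∃ k : ℕ, k + 1 = Nat.card (ClassGroup R) :=
    ⟨_, Nat.sub_add_cancel Nat.card_pos⟩
  have h1 : ClassGroup.mk0 (Pn P * Pn q ^ k) = 1 := by
    rw [map_mul, map_pow]
    change cl P * cl q ^ k = 1
    rw [hq3, ← pow_succ', hk1]
    exact pow_card_eq_one'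
  have h2 : (P.asIdeal * q.asIdeal ^ k).IsPrincipal :=
    (ClassGroup.mk0_eq_one_iff (Pn P * Pn q ^ k).2).1 h1
  obtain ⟨a, ha⟩ := h2
  have ha' : P.asIdeal * q.asIdeal ^ k = Ideal.span {a} := ha
  have hcop : IsCoprime (P.asIdeal * q.asIdeal ^ k) (Ideal.span {m}) :=
    IsCoprime.mul_left (cop_max P hmP) ((cop_max q hq2).pow_left)
  rw [ha'] at hcop
  obtain ⟨i, hi, j, hj, hij⟩ := Ideal.isCoprime_iff_exists.1 hcop
  obtain ⟨y, hy⟩ := Ideal.mem_span_singleton.1 hi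
  have hinv : Ideal.Quotient.mk (Ideal.span {m}) y * Ideal.Quotient.mk (Ideal.span {m}) a = 1 := by
    rw [← map_mul, ← sub_eq_zero, ← map_one (Ideal.Quotient.mk (Ideal.span {m})), ← map_sub,
      Ideal.Quotient.eq_zero_iff_mem]
    have : y * a - 1 = -j := by
      rw [← hij, hy]
      ring
    rw [this]
    exact neg_mem hj
  set x := Ideal.Quotient.mk (Ideal.span {m}) y with hx
  have hd1 := heq x a hinv
  have hmd : ∀ P' : HeightOneSpectrum R, a * e x ∈ P'.asIdeal → m ∉ P'.asIdeal := by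
    intro P' h3 h4
    have h5 : Ideal.span {m} ≤ P'.asIdeal := by
      rw [Ideal.span_singleton_le_iff_mem]
      exact h4
    have h6 : (1 : R) ∈ P'.asIdeal := by
      have h7 := sub_mem h3 (h5 hd1)
      rwa [sub_sub_cancel] at h7
    exact P'.isPrime.ne_top ((Ideal.eq_top_iff_one _).2 h6)
  have haP : a ∈ P.asIdeal := by
    have : a ∈ P.asIdeal * q.asIdeal ^ k := by
      rw [ha']
      exact Ideal.mem_span_singleton_self a
    have h8 : P.asIdeal * q.asIdeal ^ k ≤ P.asIdeal := Ideal.le_of_dvd (dvd_mul_right _ _)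
    exact h8 this
  have haI : ∀ I : Ideal R, a ∈ I ↔ I ∣ P.asIdeal * q.asIdeal ^ k := by
    intro I
    rw [ha', Ideal.dvd_span_singleton]
  have hsame : ∀ P' : HeightOneSpectrum R, P'.asIdeal ∣ q.asIdeal ^ k → P' = q := by
    intro P' h3
    have h4 := P'.prime.dvd_of_dvd_pow h3
    have h5 : q.asIdeal ≤ P'.asIdeal := Ideal.le_of_dvd h4
    exact (HeightOneSpectrum.ext (q.isMaximal.eq_of_le P'.isPrime.ne_top h5)).symm
  have heP : e x ∉ P.asIdeal := fun h => hPB (hB2 P hmP ⟨x, h⟩)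
  have haP2 : a ∉ P.asIdeal ^ 2 := by
    intro h
    have h3 := (haI _).1 h
    rw [pow_two] at h3
    have hP0 : P.asIdeal ≠ 0 := P.ne_bot
    have h4 : P.asIdeal ∣ q.asIdeal ^ k := (mul_dvd_mul_iff_left hP0).1 h3
    exact hqP (hsame P h4).symm
  refine ⟨a * e x, hd1, Ideal.mul_mem_right _ _ haP, fun h => ?_, fun P' hne h => ?_⟩
  · have := P.isPrime
    rw [mul_comm] at h
    rcases Ideal.IsPrime.mul_mem_pow P.asIdeal h with h4 | h4
    · exact heP h4
    · exact haP2 h4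
  · have hmP' := hmd P' h
    have := P'.isPrime
    rcases P'.isPrime.mem_or_mem h with h4 | h4
    · rcases P'.prime.dvd_or_dvd ((haI _).1 h4) with h5 | h5
      · exfalso
        apply hne
        have h6 : P.asIdeal ≤ P'.asIdeal := Ideal.le_of_dvd h5
        exact (HeightOneSpectrum.ext (P.isMaximal.eq_of_le P'.isPrime.ne_top h6)).symm
      · rw [hsame P' h5]
        exact hqB
    · exact hB2 P' hmP' ⟨x, h4⟩

omit [IsDedekindDomain R] in
theorem one_mem_prod {ι : Type} (I : Ideal R) (S : Finset ι) (δ : ι → R)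
    (h : ∀ i ∈ S, δ i - 1 ∈ I) : (∏ i ∈ S, δ i) - 1 ∈ I := by
  classical
  rw [← Ideal.Quotient.eq_zero_iff_mem, map_sub, map_prod, map_one, sub_eq_zero]
  refine Finset.prod_eq_one fun i hi => ?_
  rw [← sub_eq_zero, ← map_one (Ideal.Quotient.mk I), ← map_sub, Ideal.Quotient.eq_zero_iff_mem]
  exact h i hi

end Ray87

theorem ray : RAYStmt := by
  intro K _ _ m hm
  have : Finite (𝓞 K ⧸ Ideal.span {m}) := by
    refine Ideal.finiteQuotientOfFreeOfNeBot _ ?_
    rwa [Ne, Ideal.span_singleton_eq_bot]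
  exact Ray87.ray m

theorem twi : TWIStmt := by
  intro K _ _ m B T' T hray hBT hdisj hTm
  classical
  have hTB : ∀ P ∈ T, P ∉ B := fun P hP hPB =>
    (Finset.disjoint_left.1 hdisj hP) (hBT hPB)
  have hd' : ∀ P : HeightOneSpectrum (𝓞 K), ∃ d : 𝓞 K, P ∈ T → (d - 1 ∈ Ideal.span {m} ∧
      d ∈ P.asIdeal ∧ d ∉ P.asIdeal ^ 2 ∧
      ∀ P' : HeightOneSpectrum (𝓞 K), P' ≠ P → d ∈ P'.asIdeal → P' ∈ B) := by
    intro P
    by_cases h : P ∈ T
    · obtain ⟨d, h1⟩ := hray.2 P (hTm P h) (hTB P h)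
      exact ⟨d, fun _ => h1⟩
    · exact ⟨0, fun h' => absurd h' h⟩
  choose δ hδ using hd'
  refine ⟨1 + ∑ S ∈ T.powerset, ∑ σ : K →+* ℂ, ‖σ ((∏ P ∈ S, δ P : 𝓞 K) : K)‖, ?_,
    fun S hS => ⟨∏ P ∈ S, δ P, ?_, ⟨?_, ?_, ?_, ?_⟩, ?_⟩⟩
  · have : 0 ≤ ∑ S ∈ T.powerset, ∑ σ : K →+* ℂ, ‖σ ((∏ P ∈ S, δ P : 𝓞 K) : K)‖ :=
      Finset.sum_nonneg fun _ _ => Finset.sum_nonneg fun _ _ => norm_nonneg _
    linarith
  · exact Ray87.one_mem_prod _ S δ fun P hP => (hδ P (hS hP)).1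
  · refine Finset.prod_ne_zero_iff.2 fun P hP h0 => ?_
    have h1 := (hδ P (hS hP)).2.2.1
    rw [h0] at h1
    exact h1 (Ideal.zero_mem _)
  · intro P hP
    have hrest : (∏ P'' ∈ S.erase P, δ P'') ∉ P.asIdeal := by
      have := P.isPrime
      intro h
      obtain ⟨P'', hP'', h2⟩ := (Ideal.IsPrime.prod_mem_iff).1 h
      rw [Finset.mem_erase] at hP''
      have h3 := (hδ P'' (hS hP''.2)).2.2.2 P (Ne.symm hP''.1) h2
      exact hTB P (hS hP) h3
    rw [← Finset.mul_prod_erase S δ hP]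
    have hPd := hδ P (hS hP)
    refine ⟨Ideal.mul_mem_right _ _ hPd.2.1, fun h => ?_⟩
    have := P.isPrime
    rw [mul_comm] at h
    rcases Ideal.IsPrime.mul_mem_pow P.asIdeal h with h4 | h4
    · exact hrest h4
    · exact hPd.2.2.1 h4
  · intro P hP hPS h
    have := P.isPrime
    obtain ⟨P'', hP'', h2⟩ := (Ideal.IsPrime.prod_mem_iff).1 h
    have hne : P ≠ P'' := fun h5 => hPS (h5 ▸ hP'')
    exact hTB P hP ((hδ P'' (hS hP'')).2.2.2 P hne h2)
  · intro P hP hP' h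
    have := P.isPrime
    obtain ⟨P'', hP'', h2⟩ := (Ideal.IsPrime.prod_mem_iff).1 h
    have hne : P ≠ P'' := fun h5 => hP (h5 ▸ hS hP'')
    exact hP' (hBT ((hδ P'' (hS hP'')).2.2.2 P hne h2))
  · intro σ
    have h1 : ‖σ ((∏ P ∈ S, δ P : 𝓞 K) : K)‖ ≤
        ∑ σ : K →+* ℂ, ‖σ ((∏ P ∈ S, δ P : 𝓞 K) : K)‖ :=
      Finset.single_le_sum (f := fun σ : K →+* ℂ => ‖σ ((∏ P ∈ S, δ P : 𝓞 K) : K)‖)
        (fun _ _ => norm_nonneg _) (Finset.mem_univ σ)
    have h2 : (∑ σ : K →+* ℂ, ‖σ ((∏ P ∈ S, δ P : 𝓞 K) : K)‖) ≤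
        ∑ S ∈ T.powerset, ∑ σ : K →+* ℂ, ‖σ ((∏ P ∈ S, δ P : 𝓞 K) : K)‖ :=
      Finset.single_le_sum
        (f := fun S => ∑ σ : K →+* ℂ, ‖σ ((∏ P ∈ S, δ P : 𝓞 K) : K)‖)
        (fun _ _ => Finset.sum_nonneg fun _ _ => norm_nonneg _) (Finset.mem_powerset.2 hS)
    linarith

end Pool.NF
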