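import Pool.Agent.H29.NF.A
import Pool.Agent.H87.NF.RAY

/-!
# NF, row TWSN: the twisting elements
-/

set_option autoImplicit false

namespace Pool.NF

open Polynomial NumberField IsDedekindDomain Pool.HYP Pool.TOW Pool.AVS Pool.T1

theorem twsn : TWSNStmt := by
  intro K _ _
  obtain ⟨B, hB⟩ := ray K 8 (by norm_num)
  refine ⟨B, fun T' hBT h2 T hdisj => ?_⟩
  obtain ⟨E, hE, hd⟩ := twi K 8 B T' T hB hBT hdisj (fun P hP h8 => by
    have h3 : (2 : 𝓞 K) ^ 3 ∈ P.asIdeal := by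
      have : (2 : 𝓞 K) ^ 3 = 8 := by norm_num
      rw [this]
      exact h8
    have h4 := h2 P (P.isPrime.mem_of_pow_mem 3 h3)
    exact Finset.disjoint_left.1 hdisj hP h4)
  have hE' : E ≤ (⌈E⌉₊ : ℝ) := Nat.le_ceil E
  refine ⟨⌈E⌉₊, ?_, fun S hS => ?_⟩
  · have : (1 : ℝ) ≤ (⌈E⌉₊ : ℝ) := hE.trans hE'
    exact_mod_cast this
  · obtain ⟨d, h3, h4, h5⟩ := hd S hS
    refine ⟨d, fun σ => (h5 σ).trans hE', h4, ?_⟩
    obtain ⟨e, he⟩ := Ideal.mem_span_singleton.1 h3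
    exact ⟨e, by rw [← he]; ring⟩

end Pool.NF
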