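import Pool.Agent.H29.T1.S7
import Mathlib.NumberTheory.NumberField.ClassNumber

/-!
# NF: twisting elements congruent to one: statements

`m` is a nonzero algebraic integer, for example `8` times an integer.
-/

set_option autoImplicit false

namespace Pool.NF

open NumberField IsDedekindDomain Pool.T1

section Defs

variable {R : Type} [CommRing R] [IsDomain R]

/-- Outside `B`, every prime `P` which does not contain `m` contains an element `d = 1` modulo `m`,
which is not in `P^2` and in no prime outside `B` except `P`. -/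
def Ray (m : R) (B : Finset (HeightOneSpectrum R)) : Prop :=
  (∀ P ∈ B, m ∉ P.asIdeal) ∧
    ∀ P : HeightOneSpectrum R, m ∉ P.asIdeal → P ∉ B →
      ∃ d : R, d - 1 ∈ Ideal.span {m} ∧ d ∈ P.asIdeal ∧ d ∉ P.asIdeal ^ 2 ∧
        ∀ P' : HeightOneSpectrum R, P' ≠ P → d ∈ P'.asIdeal → P' ∈ B

end Defs

/-- RAY: representatives of the ray classes modulo `m`. -/
def RAYStmt : Prop :=
  ∀ (K : Type) [Field K] [NumberField K] (m : 𝓞 K), m ≠ 0 →
    ∃ B : Finset (HeightOneSpectrum (𝓞 K)), Ray m B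

/-- TWI: the twisting elements, congruent to one modulo `m` and of bounded size. -/
def TWIStmt : Prop :=
  ∀ (K : Type) [Field K] [NumberField K] (m : 𝓞 K) (B T' T : Finset (HeightOneSpectrum (𝓞 K))),
    Ray m B → B ⊆ T' → Disjoint T T' → (∀ P ∈ T, m ∉ P.asIdeal) →
    ∃ E : ℝ, 1 ≤ E ∧ ∀ S ⊆ T, ∃ d : 𝓞 K, d - 1 ∈ Ideal.span {m} ∧ Twi T T' S d ∧
      ∀ σ : K →+* ℂ, ‖σ (d : K)‖ ≤ E

end Pool.NF
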